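import Mathlib

/-!
# Lagrange's theorem for a large class of subloops of finite automorphic loops

Let `Q` be an arbitrary finite automorphic loop.  We prove that `|S|` divides `|Q|` for every
subloop `S` of `Q` such that for each prime `p` some subloop `T` of `S` has order divisible by the
full `p`-part of `|S|` and is either associative or has a left multiplication group that is a
`p`-group.
-/

namespace Pool.Agent.Results.MP_62d712_al.SylowLagrange

open Finset

section conj

variable {G : Type*} [Group G] [Fintype G]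

open scoped Classical in
/-- The size of a conjugacy class times the order of the centralizer is the order of the group. -/
lemma card_conj_mul (g : G) :
    Nat.card {x // IsConj g x} * Nat.card (Subgroup.centralizer {g}) = Nat.card G := by
  have h := MulAction.card_orbit_mul_card_stabilizer_eq_card_group (ConjAct G) g
  rw [← Nat.card_eq_fintype_card, ← Nat.card_eq_fintype_card, ← Nat.card_eq_fintype_card] at h
  have h1 : Nat.card (MulAction.orbit (ConjAct G) g) = Nat.card {x // IsConj g x} := by
    apply Nat.card_congr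
    refine Equiv.subtypeEquivRight ?_
    intro x
    rw [ConjAct.mem_orbit_conjAct]
    exact isConj_comm
  have h2 : Nat.card (MulAction.stabilizer (ConjAct G) g) =
      Nat.card (Subgroup.centralizer {g}) := by
    rw [Subgroup.centralizer_eq_comap_stabilizer]
    exact (Nat.card_congr
      ((ConjAct.toConjAct (G := G)).toEquiv.subtypeEquiv (fun _ => Iff.rfl))).symm
  rw [h1, h2] at h
  rw [h]
  exact Nat.card_congr (ConjAct.ofConjAct (G := G)).toEquiv

open scoped Classical in
/-- If `f` is a class function, `d ∣ |class of g| * f g` for all `g ≠ 1` and `d` divides the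
total sum of `f`, then `d ∣ f 1`. -/
lemma dvd_of_class_sum (f : G → ℕ) (d : ℕ) (hf : ∀ g x, IsConj g x → f g = f x)
    (h1 : ∀ g : G, g ≠ 1 → d ∣ Nat.card {x // IsConj g x} * f g)
    (hs : d ∣ ∑ g : G, f g) : d ∣ f 1 := by
  have hsum : ∑ g : G, f g = ∑ c : ConjClasses G, ∑ g ∈ Finset.univ.filter
      (fun g => ConjClasses.mk g = c), f g :=
    (Finset.sum_fiberwise Finset.univ (fun g => ConjClasses.mk g) f).symm
  rw [hsum, ← Finset.add_sum_erase _ _ (Finset.mem_univ (ConjClasses.mk (1 : G)))] at hs
  have h2 : ∑ g ∈ Finset.univ.filter (fun g : G => ConjClasses.mk g = ConjClasses.mk 1), f g =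
      f 1 := by
    have : Finset.univ.filter (fun g : G => ConjClasses.mk g = ConjClasses.mk 1) = {1} := by
      ext g
      simp [ConjClasses.mk_eq_mk_iff_isConj]
    rw [this, Finset.sum_singleton]
  rw [h2] at hs
  refine (Nat.dvd_add_iff_left (Finset.dvd_sum ?_)).mpr hs
  intro c hc
  obtain ⟨g, rfl⟩ := ConjClasses.exists_rep c
  have hg : g ≠ 1 := by
    rintro rfl
    exact (Finset.notMem_erase _ _) hc
  have hset : (Finset.univ.filter (fun x : G => ConjClasses.mk x = ConjClasses.mk g)).card =
      Nat.card {x // IsConj g x} := by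
    rw [Nat.card_eq_fintype_card, Fintype.card_subtype]
    congr 1
    ext x
    simp only [ConjClasses.mk_eq_mk_iff_isConj, Finset.mem_filter, Finset.mem_univ, true_and]
    exact isConj_comm
  have : ∑ x ∈ Finset.univ.filter (fun x => ConjClasses.mk x = ConjClasses.mk g), f x =
      Nat.card {x // IsConj g x} * f g := by
    rw [Finset.sum_congr rfl (g := fun _ => f g)]
    · simp [hset]
    · intro x hx
      have := (Finset.mem_filter.mp hx).2
      rw [ConjClasses.mk_eq_mk_iff_isConj] at this
      exact hf x g this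
  rw [this]
  exact h1 g hg

end conj

/-- A loop (`mul`, neutral element `e`) all of whose middle, left and right inner mappings are
automorphisms. -/
structure IsALoop {Q : Type} (mul : Q → Q → Q) (e : Q) : Prop where
  e_mul : ∀ x, mul e x = x
  mul_e : ∀ x, mul x e = x
  ldiv : ∀ a b : Q, ∃! x, mul a x = b
  rdiv : ∀ a b : Q, ∃! x, mul x a = b
  autT : ∀ x u v a b c : Q, mul x a = mul u x → mul x b = mul v x →
        mul x c = mul (mul u v) x → c = mul a b
  autL : ∀ x y u v a b c : Q, mul (mul x y) a = mul x (mul y u) →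
        mul (mul x y) b = mul x (mul y v) →
        mul (mul x y) c = mul x (mul y (mul u v)) → c = mul a b
  autR : ∀ x y u v a b c : Q, mul a (mul x y) = mul (mul u x) y →
        mul b (mul x y) = mul (mul v x) y →
        mul c (mul x y) = mul (mul (mul u v) x) y → c = mul a b

namespace IsALoop

variable {Q : Type} {mul : Q → Q → Q} {e : Q} (h : IsALoop mul e)
include h

lemma left_cancel {a x y : Q} (hxy : mul a x = mul a y) : x = y :=
  (h.ldiv a (mul a y)).unique hxy rfl

lemma right_cancel {a x y : Q} (hxy : mul x a = mul y a) : x = y :=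
  (h.rdiv a (mul y a)).unique hxy rfl

/-- Left translation as a permutation. -/
noncomputable def L (a : Q) : Equiv.Perm Q :=
  Equiv.ofBijective (mul a)
    ⟨fun _ _ hxy => h.left_cancel hxy, fun b => (h.ldiv a b).exists⟩

/-- Right translation as a permutation. -/
noncomputable def R (a : Q) : Equiv.Perm Q :=
  Equiv.ofBijective (fun x => mul x a)
    ⟨fun _ _ hxy => h.right_cancel hxy, fun b => (h.rdiv a b).exists⟩

@[simp] lemma L_apply (a x : Q) : h.L a x = mul a x := rfl
@[simp] lemma R_apply (a x : Q) : h.R a x = mul x a := rfl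

lemma mul_L_inv (a x : Q) : mul a ((h.L a)⁻¹ x) = x := by
  have := (h.L a).apply_symm_apply x
  exact this

omit h in
/-- A permutation is an automorphism. -/
def IsAut (mul : Q → Q → Q) (f : Equiv.Perm Q) : Prop := ∀ a b, f (mul a b) = mul (f a) (f b)

omit h in
lemma IsAut.comp {f g : Equiv.Perm Q} (hf : IsAut mul f) (hg : IsAut mul g) :
    IsAut mul (f * g) := by
  intro a b
  rw [Equiv.Perm.mul_apply, hg, hf]
  rfl

omit h in
lemma IsAut.inv {f : Equiv.Perm Q} (hf : IsAut mul f) : IsAut mul f⁻¹ := by
  intro a b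
  apply f.injective
  rw [hf]
  simp

lemma aut_inner (x y : Q) : IsAut mul ((h.L (mul x y))⁻¹ * (h.L x * h.L y)) := by
  intro u v
  refine h.autL x y u v _ _ _ ?_ ?_ ?_
  · simp only [Equiv.Perm.mul_apply]
    rw [h.mul_L_inv]
    rfl
  · simp only [Equiv.Perm.mul_apply]
    rw [h.mul_L_inv]
    rfl
  · simp only [Equiv.Perm.mul_apply]
    rw [h.mul_L_inv]
    rfl

lemma aut_T (x : Q) : IsAut mul ((h.L x)⁻¹ * h.R x) := by
  intro u v
  refine h.autT x u v _ _ _ ?_ ?_ ?_
  · simp only [Equiv.Perm.mul_apply]
    rw [h.mul_L_inv]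
    rfl
  · simp only [Equiv.Perm.mul_apply]
    rw [h.mul_L_inv]
    rfl
  · simp only [Equiv.Perm.mul_apply]
    rw [h.mul_L_inv]
    rfl

lemma mul_R_inv (a x : Q) : mul ((h.R a)⁻¹ x) a = x := by
  have := (h.R a).apply_symm_apply x
  exact this

lemma aut_innerR (x y : Q) : IsAut mul ((h.R (mul x y))⁻¹ * (h.R y * h.R x)) := by
  intro u v
  refine h.autR x y u v _ _ _ ?_ ?_ ?_
  · simp only [Equiv.Perm.mul_apply]
    rw [h.mul_R_inv]
    rfl
  · simp only [Equiv.Perm.mul_apply]
    rw [h.mul_R_inv]
    rfl
  · simp only [Equiv.Perm.mul_apply]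
    rw [h.mul_R_inv]
    rfl

omit h in
lemma IsAut.L_comm (h : IsALoop mul e) {f : Equiv.Perm Q} (hf : IsAut mul f) (a : Q) :
    f * h.L a = h.L (f a) * f := by
  ext x
  simp only [Equiv.Perm.mul_apply, L_apply]
  exact hf a x

omit h in
lemma IsAut.map_one (h : IsALoop mul e) {f : Equiv.Perm Q} (hf : IsAut mul f) : f e = e := by
  have h1 : mul (f e) (f e) = mul (f e) e := by
    rw [← hf, h.e_mul, h.mul_e]
  exact h.left_cancel h1

lemma L_one : h.L e = 1 := by
  ext x
  simp [h.e_mul]

/-- The holomorph: all permutations of the form (left translation) ∘ (automorphism). -/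
def hol : Subgroup (Equiv.Perm Q) where
  carrier := {g | IsAut mul ((h.L (g e))⁻¹ * g)}
  one_mem' := by
    simp only [Set.mem_ofPred_eq, Equiv.Perm.coe_one, id_eq, mul_one]
    rw [h.L_one]
    intro a b
    rfl
  mul_mem' := by
    intro g g' hg hg'
    simp only [Set.mem_ofPred_eq] at hg hg' ⊢
    set f := (h.L (g e))⁻¹ * g with hf
    set f' := (h.L (g' e))⁻¹ * g' with hf'
    have e1 : g = h.L (g e) * f := by rw [hf]; group
    have e2 : g' = h.L (g' e) * f' := by rw [hf']; group
    have e3 : (g * g') e = mul (g e) (f (g' e)) := by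
      rw [Equiv.Perm.mul_apply]
      conv_lhs => rw [e1]
      rfl
    rw [e3]
    have e4 : g * g' = h.L (g e) * h.L (f (g' e)) * (f * f') := by
      conv_lhs => rw [e1, e2]
      have := hg.L_comm h (g' e)
      calc h.L (g e) * f * (h.L (g' e) * f') = h.L (g e) * (f * h.L (g' e)) * f' := by group
        _ = h.L (g e) * (h.L (f (g' e)) * f) * f' := by rw [this]
        _ = _ := by group
    rw [e4]
    have := (h.aut_inner (g e) (f (g' e))).comp (hg.comp hg')
    rw [show (h.L (mul (g e) (f (g' e))))⁻¹ * (h.L (g e) * h.L (f (g' e)) * (f * f')) =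
      (h.L (mul (g e) (f (g' e))))⁻¹ * (h.L (g e) * h.L (f (g' e))) * (f * f') by group]
    exact this
  inv_mem' := by
    intro g hg
    simp only [Set.mem_ofPred_eq] at hg ⊢
    set f := (h.L (g e))⁻¹ * g with hf
    have e1 : g = h.L (g e) * f := by rw [hf]; group
    set b := g⁻¹ e with hb
    have e2 : mul (g e) (f b) = e := by
      have h3 : g b = e := by rw [hb]; simp
      rw [e1] at h3
      simpa using h3
    have e3 : g * h.L b = (h.L (mul (g e) (f b)))⁻¹ * (h.L (g e) * h.L (f b)) * f := by
      rw [e2, h.L_one]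
      conv_lhs => rw [e1]
      have := hg.L_comm h b
      calc h.L (g e) * f * h.L b = h.L (g e) * (f * h.L b) := by group
        _ = h.L (g e) * (h.L (f b) * f) := by rw [this]
        _ = _ := by group
    have e4 : IsAut mul (g * h.L b) := by
      rw [e3]
      exact (h.aut_inner _ _).comp hg
    have := e4.inv
    rw [show (g * h.L b)⁻¹ = (h.L b)⁻¹ * g⁻¹ by group] at this
    exact this

lemma mem_hol {g : Equiv.Perm Q} : g ∈ h.hol ↔ IsAut mul ((h.L (g e))⁻¹ * g) := Iff.rfl

lemma L_mem_hol (a : Q) : h.L a ∈ h.hol := by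
  rw [h.mem_hol, h.L_apply, h.mul_e]
  intro x y
  simp

lemma R_mem_hol (a : Q) : h.R a ∈ h.hol := by
  rw [h.mem_hol, h.R_apply, h.e_mul]
  exact h.aut_T a

lemma isAut_of_mem_hol {g : Equiv.Perm Q} (hg : g ∈ h.hol) (he : g e = e) : IsAut mul g := by
  rw [h.mem_hol, he, h.L_one] at hg
  simpa using hg

/-- Restriction of an automorphic loop to a subloop. -/
lemma restrict (T : Set Q) (he : e ∈ T) (hm : ∀ a ∈ T, ∀ b ∈ T, mul a b ∈ T)
    (hl : ∀ a ∈ T, ∀ b ∈ T, ∀ x, mul a x = b → x ∈ T)
    (hr : ∀ a ∈ T, ∀ b ∈ T, ∀ x, mul x a = b → x ∈ T) :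
    IsALoop (Q := T) (fun a b => ⟨mul a.1 b.1, hm _ a.2 _ b.2⟩) ⟨e, he⟩ where
  e_mul x := Subtype.ext (h.e_mul _)
  mul_e x := Subtype.ext (h.mul_e _)
  ldiv a b := by
    obtain ⟨x, hx, hu⟩ := h.ldiv a.1 b.1
    refine ⟨⟨x, hl _ a.2 _ b.2 x hx⟩, Subtype.ext hx, ?_⟩
    intro y hy
    exact Subtype.ext (hu y.1 (congrArg Subtype.val hy))
  rdiv a b := by
    obtain ⟨x, hx, hu⟩ := h.rdiv a.1 b.1
    refine ⟨⟨x, hr _ a.2 _ b.2 x hx⟩, Subtype.ext hx, ?_⟩
    intro y hy
    exact Subtype.ext (hu y.1 (congrArg Subtype.val hy))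
  autT x u v a b c h1 h2 h3 := Subtype.ext (h.autT x.1 u.1 v.1 a.1 b.1 c.1
    (congrArg Subtype.val h1) (congrArg Subtype.val h2) (congrArg Subtype.val h3))
  autL x y u v a b c h1 h2 h3 := Subtype.ext (h.autL x.1 y.1 u.1 v.1 a.1 b.1 c.1
    (congrArg Subtype.val h1) (congrArg Subtype.val h2) (congrArg Subtype.val h3))
  autR x y u v a b c h1 h2 h3 := Subtype.ext (h.autR x.1 y.1 u.1 v.1 a.1 b.1 c.1
    (congrArg Subtype.val h1) (congrArg Subtype.val h2) (congrArg Subtype.val h3))

end IsALoop

open IsALoop

open scoped Classical in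
/-- The main induction. -/
theorem mainAssoc (n : ℕ) : ∀ (Q : Type) [Fintype Q] (mul : Q → Q → Q) (e : Q),
    IsALoop mul e → Fintype.card Q = n → ∀ S : Finset Q, e ∈ S →
      (∀ a ∈ S, ∀ b ∈ S, mul a b ∈ S) →
      (∀ a ∈ S, ∀ b ∈ S, ∀ c ∈ S, mul (mul a b) c = mul a (mul b c)) →
      S.card ∣ Fintype.card Q := by
  induction n using Nat.strong_induction_on with
  | _ n ih =>
  intro Q _ mul e h hn S heS hmS hass
  -- the left multiplication group of S on Q
  let M : Subgroup (Equiv.Perm Q) := Subgroup.closure {g | ∃ s ∈ S, g = h.L s}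
  have hLM : ∀ s ∈ S, h.L s ∈ M := fun s hs => Subgroup.subset_closure ⟨s, hs, rfl⟩
  have hMhol : M ≤ h.hol := by
    rw [Subgroup.closure_le]
    rintro g ⟨s, -, rfl⟩
    exact h.L_mem_hol s
  -- elements of M act on S as left multiplications
  have hMS : ∀ g ∈ M, g e ∈ S ∧ ∀ s ∈ S, g s = mul (g e) s := by
    intro g hg
    induction hg using Subgroup.closure_induction with
    | mem g hg =>
      obtain ⟨s, hs, rfl⟩ := hg
      refine ⟨by simpa [h.mul_e] using hs, ?_⟩
      intro t _
      simp [h.mul_e]
    | one => exact ⟨by simpa using heS, fun s _ => by simp [h.e_mul]⟩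
    | mul g g' _ _ hg hg' =>
      have h1 : g (g' e) = mul (g e) (g' e) := hg.2 _ hg'.1
      refine ⟨by rw [Equiv.Perm.mul_apply, h1]; exact hmS _ hg.1 _ hg'.1, ?_⟩
      intro s hs
      rw [Equiv.Perm.mul_apply, Equiv.Perm.mul_apply, h1, hg'.2 s hs,
        hg.2 _ (hmS _ hg'.1 _ hs), hass _ hg.1 _ hg'.1 _ hs]
    | inv g _ hg =>
      -- g restricts to a permutation of S
      have hsurj : ∀ t ∈ S, ∃ s ∈ S, g s = t := by
        have himg : S.image g = S := by
          apply Finset.eq_of_subset_of_card_le
          · intro t ht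
            obtain ⟨s, hs, rfl⟩ := Finset.mem_image.mp ht
            rw [hg.2 s hs]
            exact hmS _ hg.1 _ hs
          · rw [Finset.card_image_of_injective _ g.injective]
        intro t ht
        rw [← himg] at ht
        obtain ⟨s, hs, hst⟩ := Finset.mem_image.mp ht
        exact ⟨s, hs, hst⟩
      have hinv : ∀ t ∈ S, g⁻¹ t ∈ S := by
        intro t ht
        obtain ⟨s, hs, rfl⟩ := hsurj t ht
        simpa using hs
      refine ⟨hinv e heS, ?_⟩
      intro t ht
      have ha : mul (g e) (g⁻¹ e) = e := by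
        rw [← hg.2 _ (hinv e heS)]; simp
      have hb : mul (g e) (g⁻¹ t) = t := by
        rw [← hg.2 _ (hinv t ht)]; simp
      have hc : mul (g e) (mul (g⁻¹ e) t) = t := by
        rw [← hass _ hg.1 _ (hinv e heS) _ ht, ha, h.e_mul]
      exact h.left_cancel (hb.trans hc.symm)
  -- elements of M fixing e are central in M
  have hcentral : ∀ k ∈ M, k e = e → ∀ g ∈ M, k * g = g * k := by
    intro k hk hke g hg
    have hkaut : IsAut mul k := h.isAut_of_mem_hol (hMhol hk) hke
    have hks : ∀ s ∈ S, k s = s := by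
      intro s hs
      rw [(hMS k hk).2 s hs, hke, h.e_mul]
    induction hg using Subgroup.closure_induction with
    | mem g hg =>
      obtain ⟨s, hs, rfl⟩ := hg
      rw [hkaut.L_comm h s, hks s hs]
    | one => simp
    | mul g g' _ _ hg hg' => rw [← mul_assoc, hg, mul_assoc, hg', mul_assoc]
    | inv g _ hg =>
      have := congrArg (fun x => g⁻¹ * x * g⁻¹) hg
      simp only [mul_assoc, mul_inv_cancel, mul_one, inv_mul_cancel_left] at this
      exact this.symm
  -- every element of M is L_s times a central element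
  -- orbit-stabilizer
  let K : Subgroup M := MulAction.stabilizer M e
  have hcardM : Nat.card M = S.card * Nat.card K := by
    have h1 := MulAction.card_orbit_mul_card_stabilizer_eq_card_group M e
    rw [← Nat.card_eq_fintype_card, ← Nat.card_eq_fintype_card, ← Nat.card_eq_fintype_card] at h1
    rw [← h1]
    congr 1
    have h2 : MulAction.orbit M e = (S : Set Q) := by
      ext x
      rw [MulAction.mem_orbit_iff]
      constructor
      · rintro ⟨g, rfl⟩
        exact (hMS g.1 g.2).1
      · intro hx
        exact ⟨⟨h.L x, hLM x hx⟩, h.mul_e x⟩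
    rw [h2]
    simp
  -- the key divisibility for non-identity elements
  have key : ∀ m : M, m ≠ 1 →
      S.card ∣ Nat.card {x // IsConj m x} * Nat.card (MulAction.fixedBy Q m) := by
    intro m hm
    by_cases hfix : Nonempty (MulAction.fixedBy Q m)
    swap
    · have : Nat.card (MulAction.fixedBy Q m) = 0 := by
        have := not_nonempty_iff.mp hfix
        exact Nat.card_of_isEmpty
      rw [this]; simp
    obtain ⟨⟨y, hy⟩⟩ := hfix
    have hy' : m.1 y = y := hy
    -- the automorphism φ
    let φ : Equiv.Perm Q := (h.R y)⁻¹ * m.1 * h.R y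
    have hφhol : φ ∈ h.hol :=
      h.hol.mul_mem (h.hol.mul_mem (h.hol.inv_mem (h.R_mem_hol y)) (hMhol m.2)) (h.R_mem_hol y)
    have hφy : ∀ z, mul (φ z) y = m.1 (mul z y) := by
      intro z
      have : (h.R y) (φ z) = m.1 (h.R y z) := by
        simp [φ]
      exact this
    have hφe : φ e = e := by
      apply h.right_cancel (a := y)
      rw [hφy, h.e_mul, hy']
    have hφaut : IsAut mul φ := h.isAut_of_mem_hol hφhol hφe
    have hφne : φ ≠ 1 := by
      intro h1
      apply hm
      apply Subtype.ext
      have : m.1 = h.R y * φ * (h.R y)⁻¹ := by simp only [φ]; group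
      rw [this, h1]
      simp
    -- the fixed subloop
    let T : Set Q := {z | φ z = z}
    have hTe : e ∈ T := hφe
    have hTm : ∀ a ∈ T, ∀ b ∈ T, mul a b ∈ T := by
      intro a ha b hb
      have ha' : φ a = a := ha
      have hb' : φ b = b := hb
      change φ (mul a b) = mul a b
      rw [hφaut, ha', hb']
    have hTl : ∀ a ∈ T, ∀ b ∈ T, ∀ x, mul a x = b → x ∈ T := by
      intro a ha b hb x hx
      have ha' : φ a = a := ha
      have hb' : φ b = b := hb
      have := hφaut a x
      rw [hx, hb', ha', ← hx] at this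
      exact (h.left_cancel this).symm
    have hTr : ∀ a ∈ T, ∀ b ∈ T, ∀ x, mul x a = b → x ∈ T := by
      intro a ha b hb x hx
      have ha' : φ a = a := ha
      have hb' : φ b = b := hb
      have := hφaut x a
      rw [hx, hb', ha', ← hx] at this
      exact (h.right_cancel this).symm
    have hTlt : Fintype.card T < n := by
      rw [← hn]
      have : ∃ z, z ∉ T := by
        by_contra hcon
        push Not at hcon
        apply hφne
        ext z
        exact hcon z
      obtain ⟨z, hz⟩ := this
      exact Fintype.card_subtype_lt hz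
    -- S_m
    let Sm : Finset Q := S.filter (fun s => h.L s * m.1 = m.1 * h.L s)
    have hSmT : ∀ s ∈ Sm, s ∈ T := by
      intro s hs
      have hs2 := (Finset.mem_filter.mp hs).2
      change φ s = s
      apply h.right_cancel (a := y)
      rw [hφy]
      have := congrArg (fun g : Equiv.Perm Q => g y) hs2
      simp only [Equiv.Perm.mul_apply, L_apply] at this
      rw [← this, hy']
    have hLmul : ∀ s ∈ S, ∀ t ∈ S, ∃ k ∈ M, k e = e ∧ h.L s * h.L t = h.L (mul s t) * k := by
      intro s hs t ht
      refine ⟨(h.L (mul s t))⁻¹ * (h.L s * h.L t), ?_, ?_, by group⟩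
      · exact M.mul_mem (M.inv_mem (hLM _ (hmS _ hs _ ht))) (M.mul_mem (hLM s hs) (hLM t ht))
      · apply h.left_cancel (a := mul s t)
        simp only [Equiv.Perm.mul_apply]
        rw [h.mul_L_inv]
        simp [h.mul_e]
    have hSmmul : ∀ a ∈ Sm, ∀ b ∈ Sm, mul a b ∈ Sm := by
      intro a ha b hb
      obtain ⟨haS, ha2⟩ := Finset.mem_filter.mp ha
      obtain ⟨hbS, hb2⟩ := Finset.mem_filter.mp hb
      refine Finset.mem_filter.mpr ⟨hmS _ haS _ hbS, ?_⟩
      obtain ⟨k, hkM, hke, hk⟩ := hLmul a haS b hbS
      have hkm := hcentral k hkM hke m.1 m.2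
      have h1 : h.L (mul a b) = h.L a * h.L b * k⁻¹ := by rw [hk]; group
      have hkm' : k⁻¹ * m.1 = m.1 * k⁻¹ := by
        have := congrArg (fun x => k⁻¹ * x * k⁻¹) hkm
        simp only [mul_assoc, mul_inv_cancel, mul_one, inv_mul_cancel_left] at this
        exact this.symm
      rw [h1]
      calc h.L a * h.L b * k⁻¹ * m.1 = h.L a * h.L b * (k⁻¹ * m.1) := by group
        _ = h.L a * (h.L b * m.1) * k⁻¹ := by rw [hkm']; group
        _ = (h.L a * m.1) * h.L b * k⁻¹ := by rw [hb2]; group
        _ = m.1 * (h.L a * h.L b * k⁻¹) := by rw [ha2]; group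
    have hSme : e ∈ Sm := by
      refine Finset.mem_filter.mpr ⟨heS, ?_⟩
      rw [h.L_one]; simp
    -- induction hypothesis
    have hSmdvd : Sm.card ∣ Fintype.card T := by
      have hloop := h.restrict T hTe hTm hTl hTr
      have := ih (Fintype.card T) hTlt T _ _ hloop rfl (Sm.subtype (· ∈ T))
        (by simpa using hSme)
        (by
          intro a ha b hb
          rw [Finset.mem_subtype] at ha hb ⊢
          exact hSmmul _ ha _ hb)
        (by
          intro a ha b hb c hc
          rw [Finset.mem_subtype] at ha hb hc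
          exact Subtype.ext (hass _ (Finset.mem_filter.mp ha).1 _ (Finset.mem_filter.mp hb).1 _
            (Finset.mem_filter.mp hc).1))
      have hc : (Sm.subtype (· ∈ T)).card = Sm.card := by
        rw [Finset.card_subtype, Finset.filter_true_of_mem hSmT]
      rwa [hc] at this
    -- |Fix m| = |T|
    have hcardfix : Nat.card (MulAction.fixedBy Q m) = Fintype.card T := by
      symm
      rw [← Nat.card_eq_fintype_card]
      apply Nat.card_congr
      refine Equiv.ofBijective (fun z => ⟨mul z.1 y, ?_⟩) ⟨?_, ?_⟩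
      · have hz : φ z.1 = z.1 := z.2
        have := hφy z.1
        rw [hz] at this
        exact this.symm
      · intro a b hab
        exact Subtype.ext (h.right_cancel (congrArg Subtype.val hab))
      · rintro ⟨w, hw⟩
        obtain ⟨z, hz⟩ := (h.rdiv y w).exists
        have hw' : m.1 w = w := hw
        refine ⟨⟨z, ?_⟩, Subtype.ext hz⟩
        change φ z = z
        apply h.right_cancel (a := y)
        rw [hφy, hz, hw']
    -- |C_M(m)| = |Sm| |K|
    let C : Subgroup M := Subgroup.centralizer {m}
    have hcardC : Nat.card C = Sm.card * Nat.card K := by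
      have h1 := MulAction.card_orbit_mul_card_stabilizer_eq_card_group C e
      rw [← Nat.card_eq_fintype_card, ← Nat.card_eq_fintype_card, ← Nat.card_eq_fintype_card] at h1
      rw [← h1]
      have h2 : MulAction.orbit C e = (Sm : Set Q) := by
        ext x
        rw [MulAction.mem_orbit_iff]
        constructor
        · rintro ⟨⟨g, hg⟩, rfl⟩
          have hgS := hMS g.1 g.2
          have hge : (⟨g, hg⟩ : C) • e = g.1 e := rfl
          rw [hge]
          refine Finset.mem_coe.mpr (Finset.mem_filter.mpr ⟨hgS.1, ?_⟩)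
          -- g = L_{g e} * k
          have hkM : (h.L (g.1 e))⁻¹ * g.1 ∈ M := M.mul_mem (M.inv_mem (hLM _ hgS.1)) g.2
          have hke : ((h.L (g.1 e))⁻¹ * g.1) e = e := by
            apply h.left_cancel (a := g.1 e)
            simp only [Equiv.Perm.mul_apply]
            rw [h.mul_L_inv, h.mul_e]
          have hkm := hcentral _ hkM hke m.1 m.2
          have hgm : g.1 * m.1 = m.1 * g.1 := by
            have := (Subgroup.mem_centralizer_iff.mp hg) m rfl
            exact (congrArg Subtype.val this).symm
          set k := (h.L (g.1 e))⁻¹ * g.1 with hk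
          have hL : h.L (g.1 e) = g.1 * k⁻¹ := by rw [hk]; group
          have hkm' : k⁻¹ * m.1 = m.1 * k⁻¹ := by
            have := congrArg (fun x => k⁻¹ * x * k⁻¹) hkm
            simp only [mul_assoc, mul_inv_cancel, mul_one, inv_mul_cancel_left] at this
            exact this.symm
          rw [hL]
          calc g.1 * k⁻¹ * m.1 = g.1 * (k⁻¹ * m.1) := by group
            _ = (g.1 * m.1) * k⁻¹ := by rw [hkm']; group
            _ = m.1 * (g.1 * k⁻¹) := by rw [hgm]; group
        · intro hx
          have hx' := Finset.mem_filter.mp (Finset.mem_coe.mp hx)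
          refine ⟨⟨⟨h.L x, hLM x hx'.1⟩, ?_⟩, h.mul_e x⟩
          rw [Subgroup.mem_centralizer_iff]
          rintro g rfl
          exact Subtype.ext hx'.2.symm
      rw [h2]
      congr 1
      · simp
      · -- stabilizers agree
        apply Nat.card_congr
        refine Equiv.ofBijective (fun g => ⟨g.1.1, g.2⟩) ⟨?_, ?_⟩
        · intro a b hab
          have := congrArg (fun x : K => x.1) hab
          exact Subtype.ext (Subtype.ext this)
        · rintro ⟨g, hg⟩
          have hge : g.1 e = e := hg
          refine ⟨⟨⟨g, ?_⟩, hg⟩, rfl⟩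
          rw [Subgroup.mem_centralizer_iff]
          rintro x rfl
          exact Subtype.ext (hcentral g.1 g.2 hge x.1 x.2).symm
    have hcl := card_conj_mul m
    have hcardC' : Nat.card (Subgroup.centralizer {m}) = Sm.card * Nat.card K := hcardC
    rw [hcardM, hcardC', ← mul_assoc] at hcl
    have hcl2 : Nat.card {x // IsConj m x} * Sm.card = S.card :=
      Nat.eq_of_mul_eq_mul_right Nat.card_pos hcl
    obtain ⟨q, hq⟩ := hSmdvd
    rw [hcardfix, hq, ← mul_assoc, hcl2]
    exact Dvd.intro q rfl
  -- conclusion by Burnside's lemma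
  have hburn : ∑ m : M, Nat.card (MulAction.fixedBy Q m) =
      Fintype.card (Quotient (MulAction.orbitRel M Q)) * Fintype.card M := by
    rw [← MulAction.sum_card_fixedBy_eq_card_orbits_mul_card_group M Q]
    exact Finset.sum_congr rfl (fun m _ => Nat.card_eq_fintype_card)
  have hclass : ∀ g x : M, IsConj g x →
      Nat.card (MulAction.fixedBy Q g) = Nat.card (MulAction.fixedBy Q x) := by
    intro g x hgx
    obtain ⟨c, hc⟩ := isConj_iff.mp hgx
    apply Nat.card_congr
    refine Equiv.ofBijective (fun z => ⟨c.1 z.1, ?_⟩) ⟨?_, ?_⟩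
    · have hz : g.1 z.1 = z.1 := z.2
      have : x.1 (c.1 z.1) = c.1 z.1 := by
        rw [← hc]
        simp [hz]
      exact this
    · intro a b hab
      exact Subtype.ext (c.1.injective (congrArg Subtype.val hab))
    · rintro ⟨w, hw⟩
      have hw' : x.1 w = w := hw
      refine ⟨⟨c.1⁻¹ w, ?_⟩, Subtype.ext (by simp)⟩
      have : g.1 (c.1⁻¹ w) = c.1⁻¹ w := by
        have hg : g.1 = c.1⁻¹ * x.1 * c.1 := by
          rw [← hc]; simp [mul_assoc]
        rw [hg]
        simp [hw']
      exact this
  have hdvd : S.card ∣ ∑ m : M, Nat.card (MulAction.fixedBy Q m) := by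
    rw [hburn, ← Nat.card_eq_fintype_card (α := M), hcardM]
    exact Dvd.dvd.mul_left (Dvd.intro _ rfl) _
  have hfinal := dvd_of_class_sum (G := M) (fun m => Nat.card (MulAction.fixedBy Q m)) S.card
    hclass key hdvd
  have hone : Nat.card (MulAction.fixedBy Q (1 : M)) = Fintype.card Q := by
    rw [← Nat.card_eq_fintype_card]
    apply Nat.card_congr
    exact Equiv.subtypeUnivEquiv (fun x => by simp [MulAction.mem_fixedBy])
  rw [← hone]
  exact hfinal


open scoped Classical in
/-- The induction for subloops whose left multiplication group is a `p`-group.  The hypothesis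
`hp` says that the group generated by the left translations by elements of `T` acts on `T` as a
`p`-group. -/
theorem mainP (p : ℕ) [hpp : Fact p.Prime] (n : ℕ) :
    ∀ (Q : Type) [Fintype Q] (mul : Q → Q → Q) (e : Q) (h : IsALoop mul e),
      Fintype.card Q = n → ∀ T : Finset Q, e ∈ T →
      (∀ a ∈ T, ∀ b ∈ T, mul a b ∈ T) →
      (∀ m ∈ Subgroup.closure {g | ∃ t ∈ T, g = h.L t}, ∃ k : ℕ, ∀ t ∈ T, (m ^ (p ^ k)) t = t) →
      T.card ∣ Fintype.card Q ∧ ∃ k, T.card = p ^ k := by
  induction n using Nat.strong_induction_on with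
  | _ n ih =>
  intro Q _ mul e h hn T heT hmT hp
  let M : Subgroup (Equiv.Perm Q) := Subgroup.closure {g | ∃ t ∈ T, g = h.L t}
  have hLM : ∀ t ∈ T, h.L t ∈ M := fun t ht => Subgroup.subset_closure ⟨t, ht, rfl⟩
  have hMhol : M ≤ h.hol := by
    rw [Subgroup.closure_le]
    rintro g ⟨s, -, rfl⟩
    exact h.L_mem_hol s
  -- M preserves T
  have hMT : ∀ g ∈ M, ∀ t ∈ T, g t ∈ T := by
    intro g hg
    induction hg using Subgroup.closure_induction with
    | mem g hg =>
      obtain ⟨s, hs, rfl⟩ := hg
      intro t ht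
      exact hmT _ hs _ ht
    | one => intro t ht; simpa using ht
    | mul g g' _ _ hg hg' => intro t ht; exact hg _ (hg' _ ht)
    | inv g _ hg =>
      have himg : T.image g = T := by
        apply Finset.eq_of_subset_of_card_le
        · intro t ht
          obtain ⟨s, hs, rfl⟩ := Finset.mem_image.mp ht
          exact hg _ hs
        · rw [Finset.card_image_of_injective _ g.injective]
      intro t ht
      rw [← himg] at ht
      obtain ⟨s, hs, rfl⟩ := Finset.mem_image.mp ht
      simpa using hs
  -- elements of M fixing T pointwise are central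
  have hcentral : ∀ k ∈ M, (∀ t ∈ T, k t = t) → ∀ g ∈ M, k * g = g * k := by
    intro k hk hks g hg
    have hkaut : IsAut mul k := h.isAut_of_mem_hol (hMhol hk) (hks e heT)
    induction hg using Subgroup.closure_induction with
    | mem g hg =>
      obtain ⟨s, hs, rfl⟩ := hg
      rw [hkaut.L_comm h s, hks s hs]
    | one => simp
    | mul g g' _ _ hg hg' => rw [← mul_assoc, hg, mul_assoc, hg', mul_assoc]
    | inv g _ hg =>
      have := congrArg (fun x => g⁻¹ * x * g⁻¹) hg
      simp only [mul_assoc, mul_inv_cancel, mul_one, inv_mul_cancel_left] at this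
      exact this.symm
  -- the kernel K
  let K : Subgroup M :=
    { carrier := {m | ∀ t ∈ T, m.1 t = t}
      one_mem' := fun t _ => rfl
      mul_mem' := by
        intro a b ha hb t ht
        have h1 : b.1 t = t := hb t ht
        have h2 : a.1 t = t := ha t ht
        change a.1 (b.1 t) = t
        rw [h1, h2]
      inv_mem' := by
        intro a ha t ht
        have h2 : a.1 t = t := ha t ht
        change a.1⁻¹ t = t
        rw [Equiv.Perm.inv_eq_iff_eq]
        exact h2.symm }
  have hKmem : ∀ m : M, m ∈ K ↔ ∀ t ∈ T, m.1 t = t := fun m => Iff.rfl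
  have hKcent : ∀ k ∈ K, ∀ g : M, k * g = g * k := by
    intro k hk g
    exact Subtype.ext (hcentral k.1 k.2 hk g.1 g.2)
  have hKnormal : K.Normal := by
    refine ⟨?_⟩
    intro k hk g
    have : g * k * g⁻¹ = k := by
      rw [← hKcent k hk g, mul_assoc, mul_inv_cancel, mul_one]
    rw [this]
    exact hk
  have hquot : IsPGroup p (M ⧸ K) := by
    intro q
    obtain ⟨m, rfl⟩ := QuotientGroup.mk_surjective q
    obtain ⟨k, hk⟩ := hp m.1 m.2
    refine ⟨k, ?_⟩
    rw [← QuotientGroup.mk_pow, QuotientGroup.eq_one_iff]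
    intro t ht
    exact hk t ht
  -- a Sylow subgroup
  obtain ⟨P⟩ : Nonempty (Sylow p M) := inferInstance
  have hsup : (P : Subgroup M) ⊔ K = ⊤ := by
    rw [← Subgroup.index_eq_one]
    obtain ⟨j, hj⟩ := hquot.exists_card_eq
    have h1 : ((P : Subgroup M) ⊔ K).index ∣ K.index := Subgroup.index_dvd_of_le le_sup_right
    have h2 : ((P : Subgroup M) ⊔ K).index ∣ (P : Subgroup M).index :=
      Subgroup.index_dvd_of_le le_sup_left
    have h3 : K.index = p ^ j := hj
    rw [h3] at h1
    obtain ⟨i, -, hi⟩ := (Nat.dvd_prime_pow hpp.out).mp h1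
    rw [hi] at h2 ⊢
    by_cases hi0 : i = 0
    · rw [hi0, pow_zero]
    · exfalso
      exact P.not_dvd_index (dvd_trans (dvd_pow_self p hi0) h2)
  have hdecomp : ∀ m : M, ∃ a ∈ (P : Subgroup M), ∃ k ∈ K, a * k = m := by
    intro m
    have : m ∈ (P : Subgroup M) ⊔ K := by rw [hsup]; trivial
    exact Subgroup.mem_sup_of_normal_right.mp this
  let G : Type := (P : Subgroup M)
  let _ : Group G := inferInstanceAs (Group (P : Subgroup M))
  let _ : MulAction G Q := inferInstanceAs (MulAction (P : Subgroup M) Q)
  have : Fintype G := Fintype.ofFinite _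
  have hsmul : ∀ (g : G) (q : Q), g • q = g.1.1 q := fun _ _ => rfl
  have hGp : IsPGroup p G := P.isPGroup'
  -- orbit and stabilizer of e
  have hπ : ∀ t ∈ T, ∃ a : G, a.1.1 e = t ∧ ∃ k ∈ K, h.L t = k.1 * a.1.1 := by
    intro t ht
    obtain ⟨a, ha, k, hk, hak⟩ := hdecomp ⟨h.L t, hLM t ht⟩
    have hak' : a.1 * k.1 = h.L t := congrArg Subtype.val hak
    refine ⟨⟨a, ha⟩, ?_, k, hk, ?_⟩
    · have h1 : (a.1 * k.1) e = t := by rw [hak']; simp [h.mul_e]
      rw [Equiv.Perm.mul_apply, (hKmem k).mp hk e heT] at h1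
      exact h1
    · rw [← hak']
      exact (hcentral k.1 k.2 hk a.1 a.2).symm
  choose! π hπ1 hπ2 using hπ
  let G1 : Subgroup G := MulAction.stabilizer G e
  have hcardG : Nat.card G = T.card * Nat.card G1 := by
    have h1 := MulAction.card_orbit_mul_card_stabilizer_eq_card_group G e
    rw [← Nat.card_eq_fintype_card, ← Nat.card_eq_fintype_card, ← Nat.card_eq_fintype_card] at h1
    rw [← h1]
    congr 1
    have h2 : MulAction.orbit G e = (T : Set Q) := by
      ext x
      rw [MulAction.mem_orbit_iff]
      constructor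
      · rintro ⟨g, rfl⟩
        exact hMT g.1.1 g.1.2 e heT
      · intro hx
        exact ⟨π x, hπ1 x hx⟩
    rw [h2]
    simp
  -- the sets B z
  have key : ∀ x : G, x ≠ 1 →
      T.card ∣ Nat.card {x' // IsConj x x'} * Nat.card (MulAction.fixedBy Q x) := by
    intro x hx
    by_cases hfix : Nonempty (MulAction.fixedBy Q x)
    swap
    · have : Nat.card (MulAction.fixedBy Q x) = 0 := by
        have := not_nonempty_iff.mp hfix
        exact Nat.card_of_isEmpty
      rw [this]; simp
    obtain ⟨⟨y, hy⟩⟩ := hfix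
    have hy' : x.1.1 y = y := hy
    have hxne : x.1.1 ≠ 1 := by
      intro h1
      apply hx
      exact Subtype.ext (Subtype.ext h1)
    let X : Equiv.Perm Q := x.1.1
    let B : Q → Finset Q := fun z => T.filter (fun t => X (mul t z) = mul t z)
    have hBe : e ∈ B y := by
      refine Finset.mem_filter.mpr ⟨heT, ?_⟩
      rw [h.e_mul]; exact hy'
    have hB : ∀ z, (B z).Nonempty → (B z).card ∣ Nat.card (MulAction.fixedBy Q x) ∧
        ∃ k, (B z).card = p ^ k := by
      intro z hz
      obtain ⟨t0, ht0⟩ := hz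
      obtain ⟨ht0T, ht0'⟩ := Finset.mem_filter.mp ht0
      set w := mul t0 z with hw
      let ρ : Equiv.Perm Q := (h.R w)⁻¹ * (h.R z * h.R t0)
      have hρ : IsAut mul ρ := h.aut_innerR t0 z
      have hρe : ρ e = e := hρ.map_one h
      have hρw : ∀ q, mul (ρ q) w = mul (mul q t0) z := by
        intro q
        have : (h.R w) (ρ q) = (h.R z * h.R t0) q := by simp [ρ]
        exact this
      let φ : Equiv.Perm Q := (h.R w)⁻¹ * X * h.R w
      have hφhol : φ ∈ h.hol :=
        h.hol.mul_mem (h.hol.mul_mem (h.hol.inv_mem (h.R_mem_hol w)) (hMhol x.1.2))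
          (h.R_mem_hol w)
      have hφw : ∀ q, mul (φ q) w = X (mul q w) := by
        intro q
        have : (h.R w) (φ q) = X (h.R w q) := by
          simp [φ]
        exact this
      have hφe : φ e = e := by
        apply h.right_cancel (a := w)
        rw [hφw, h.e_mul, ht0']
      have hφaut : IsAut mul φ := h.isAut_of_mem_hol hφhol hφe
      have hφne : φ ≠ 1 := by
        intro h1
        apply hxne
        have : X = h.R w * φ * (h.R w)⁻¹ := by simp only [φ]; group
        change X = 1
        rw [this, h1]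
        simp
      let F : Set Q := {q | φ q = q}
      have hFe : e ∈ F := hφe
      have hFm : ∀ a ∈ F, ∀ b ∈ F, mul a b ∈ F := by
        intro a ha b hb
        have ha' : φ a = a := ha
        have hb' : φ b = b := hb
        change φ (mul a b) = mul a b
        rw [hφaut, ha', hb']
      have hFl : ∀ a ∈ F, ∀ b ∈ F, ∀ x, mul a x = b → x ∈ F := by
        intro a ha b hb x hx
        have ha' : φ a = a := ha
        have hb' : φ b = b := hb
        have := hφaut a x
        rw [hx, hb', ha', ← hx] at this
        exact (h.left_cancel this).symm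
      have hFr : ∀ a ∈ F, ∀ b ∈ F, ∀ x, mul x a = b → x ∈ F := by
        intro a ha b hb x hx
        have ha' : φ a = a := ha
        have hb' : φ b = b := hb
        have := hφaut x a
        rw [hx, hb', ha', ← hx] at this
        exact (h.right_cancel this).symm
      have hFlt : Fintype.card F < n := by
        rw [← hn]
        have : ∃ z, z ∉ F := by
          by_contra hcon
          push Not at hcon
          apply hφne
          ext z
          exact hcon z
        obtain ⟨z, hz⟩ := this
        exact Fintype.card_subtype_lt hz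
      have hcardfix : Nat.card (MulAction.fixedBy Q x) = Fintype.card F := by
        symm
        rw [← Nat.card_eq_fintype_card]
        apply Nat.card_congr
        refine Equiv.ofBijective (fun q => ⟨mul q.1 w, ?_⟩) ⟨?_, ?_⟩
        · have hz : φ q.1 = q.1 := q.2
          have := hφw q.1
          rw [hz] at this
          exact this.symm
        · intro a b hab
          exact Subtype.ext (h.right_cancel (congrArg Subtype.val hab))
        · rintro ⟨v, hv⟩
          obtain ⟨q, hq⟩ := (h.rdiv w v).exists
          have hv' : X v = v := hv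
          refine ⟨⟨q, ?_⟩, Subtype.ext hq⟩
          change φ q = q
          apply h.right_cancel (a := w)
          rw [hφw, hq, hv']
      -- the subloop T' of F
      let hF := h.restrict F hFe hFm hFl hFr
      let T' : Finset F := Finset.univ.filter (fun q => ρ⁻¹ q.1 ∈ T)
      have hT'e : (⟨e, hFe⟩ : F) ∈ T' := by
        refine Finset.mem_filter.mpr ⟨Finset.mem_univ _, ?_⟩
        have : ρ⁻¹ e = e := by rw [Equiv.Perm.inv_eq_iff_eq]; exact hρe.symm
        change ρ⁻¹ e ∈ T
        rw [this]; exact heT
      have hT'm : ∀ a ∈ T', ∀ b ∈ T', (⟨mul a.1 b.1, hFm _ a.2 _ b.2⟩ : F) ∈ T' := by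
        intro a ha b hb
        have ha' := (Finset.mem_filter.mp ha).2
        have hb' := (Finset.mem_filter.mp hb).2
        refine Finset.mem_filter.mpr ⟨Finset.mem_univ _, ?_⟩
        change ρ⁻¹ (mul a.1 b.1) ∈ T
        rw [hρ.inv a.1 b.1]
        exact hmT _ ha' _ hb'
      have hT'card : T'.card = (B z).card := by
        apply Finset.card_bij (fun q _ => mul (ρ⁻¹ q.1) t0)
        · intro q hq
          have hq' := (Finset.mem_filter.mp hq).2
          refine Finset.mem_filter.mpr ⟨hmT _ hq' _ ht0T, ?_⟩
          have h1 : mul (mul (ρ⁻¹ q.1) t0) z = mul q.1 w := by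
            rw [← hρw]; simp
          rw [h1, ← hφw]
          have : φ q.1 = q.1 := q.2
          rw [this]
        · intro a _ b _ hab
          have := h.right_cancel hab
          exact Subtype.ext (ρ⁻¹.injective this)
        · intro t ht
          obtain ⟨htT, ht'⟩ := Finset.mem_filter.mp ht
          -- t = t' t0 with t' in T
          obtain ⟨t', ht'T, ht'eq⟩ : ∃ t' ∈ T, mul t' t0 = t := by
            have himg : T.image (fun s => mul s t0) = T := by
              apply Finset.eq_of_subset_of_card_le
              · intro t ht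
                obtain ⟨s, hs, rfl⟩ := Finset.mem_image.mp ht
                exact hmT _ hs _ ht0T
              · rw [Finset.card_image_of_injective _ (fun a b hab => h.right_cancel hab)]
            rw [← himg] at htT
            obtain ⟨s, hs, hst⟩ := Finset.mem_image.mp htT
            exact ⟨s, hs, hst⟩
          have hmem : ρ t' ∈ F := by
            change φ (ρ t') = ρ t'
            apply h.right_cancel (a := w)
            rw [hφw, hρw, ht'eq, ht']
          refine ⟨⟨ρ t', hmem⟩, Finset.mem_filter.mpr ⟨Finset.mem_univ _, by simpa using ht'T⟩, ?_⟩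
          simpa using ht'eq
      -- the p-group condition for T'
      have hT'p : ∀ m ∈ Subgroup.closure {g | ∃ t ∈ T', g = hF.L t},
          ∃ k : ℕ, ∀ t ∈ T', (m ^ (p ^ k)) t = t := by
        intro m hm
        have hlift : ∃ g ∈ M, ∀ q : F, (m q).1 = ρ (g (ρ⁻¹ q.1)) := by
          induction hm using Subgroup.closure_induction with
          | mem m hm =>
            obtain ⟨t, ht, rfl⟩ := hm
            refine ⟨h.L (ρ⁻¹ t.1), hLM _ (Finset.mem_filter.mp ht).2, ?_⟩
            intro q
            change mul t.1 q.1 = ρ (mul (ρ⁻¹ t.1) (ρ⁻¹ q.1))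
            rw [hρ]
            simp
          | one => exact ⟨1, M.one_mem, fun q => by simp⟩
          | mul m m' _ _ hm hm' =>
            obtain ⟨g, hg, hgq⟩ := hm
            obtain ⟨g', hg', hgq'⟩ := hm'
            refine ⟨g * g', M.mul_mem hg hg', ?_⟩
            intro q
            rw [Equiv.Perm.mul_apply, hgq, hgq']
            simp
          | inv m _ hm =>
            obtain ⟨g, hg, hgq⟩ := hm
            refine ⟨g⁻¹, M.inv_mem hg, ?_⟩
            intro q
            have h1 := hgq (m⁻¹ q)
            have h2 : m (m⁻¹ q) = q := m.apply_symm_apply q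
            rw [h2] at h1
            rw [h1]
            simp
        obtain ⟨g, hg, hgq⟩ := hlift
        obtain ⟨k, hk⟩ := hp g hg
        refine ⟨k, ?_⟩
        intro t ht
        have hpow : ∀ i : ℕ, ((m ^ i) t).1 = ρ ((g ^ i) (ρ⁻¹ t.1)) := by
          intro i
          induction i with
          | zero => simp
          | succ i ihi =>
            have hρρ : ∀ q, ρ⁻¹ (ρ q) = q := fun q => ρ.symm_apply_apply q
            calc ((m ^ (i + 1)) t).1 = (m ((m ^ i) t)).1 := by rw [pow_succ']; rfl
              _ = ρ (g (ρ⁻¹ ((m ^ i) t).1)) := hgq _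
              _ = ρ (g ((g ^ i) (ρ⁻¹ t.1))) := by rw [ihi, hρρ]
              _ = ρ ((g ^ (i + 1)) (ρ⁻¹ t.1)) := by rw [pow_succ' g]; rfl
        apply Subtype.ext
        rw [hpow, hk _ (Finset.mem_filter.mp ht).2]
        simp
      have hind := ih (Fintype.card F) hFlt F _ _ hF rfl T' hT'e hT'm hT'p
      rw [hT'card] at hind
      rw [hcardfix]
      exact hind
    -- maximal B z
    obtain ⟨z0, -, hz0⟩ := Finset.exists_max_image Finset.univ (fun z => (B z).card)
      ⟨e, Finset.mem_univ e⟩
    have hz0pos : (B z0).Nonempty := by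
      rw [← Finset.card_pos]
      have h1 : 0 < (B y).card := Finset.card_pos.mpr ⟨e, hBe⟩
      exact lt_of_lt_of_le h1 (hz0 y (Finset.mem_univ _))
    obtain ⟨hBdvd, b, hb⟩ := hB z0 hz0pos
    let C : Subgroup G := Subgroup.centralizer {x}
    have hCx : ∀ c : C, ∀ q, X (c.1.1.1 q) = c.1.1.1 (X q) := by
      intro c q
      have h1 := Subgroup.mem_centralizer_iff.mp c.2 x rfl
      have h2 := congrArg (fun g : G => g.1.1 q) h1
      exact h2
    -- counting
    have hCle : Nat.card C ≤ (B z0).card * Nat.card G1 := by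
      let f : C → G1 := fun c => ⟨(π (c.1.1.1 e))⁻¹ * c.1, by
        rw [MulAction.mem_stabilizer_iff, mul_smul, inv_smul_eq_iff]
        exact (hπ1 _ (hMT _ c.1.1.2 e heT)).symm⟩
      rw [Nat.card_eq_fintype_card, Nat.card_eq_fintype_card, ← Finset.card_univ (α := C),
        ← Finset.card_univ (α := G1)]
      apply Finset.card_le_mul_card_image_of_maps_to (f := f) (fun _ _ => Finset.mem_univ _)
      intro g _
      refine le_trans ?_ (hz0 (g.1.1.1 y) (Finset.mem_univ _))
      apply Finset.card_le_card_of_injOn (fun c => c.1.1.1 e)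
      · intro c hc
        have hc' : f c = g := (Finset.mem_filter.mp hc).2
        have hceT : c.1.1.1 e ∈ T := hMT _ c.1.1.2 e heT
        refine Finset.mem_coe.mpr (Finset.mem_filter.mpr ⟨hceT, ?_⟩)
        have hcg : c.1 = π (c.1.1.1 e) * g.1 := by
          rw [← hc']; simp [f]
        obtain ⟨k, hkK, hk⟩ := hπ2 _ hceT
        have h1 : mul (c.1.1.1 e) (g.1.1.1 y) = k.1 (c.1.1.1 y) := by
          have h2 : mul (c.1.1.1 e) (g.1.1.1 y) = h.L (c.1.1.1 e) (g.1.1.1 y) := rfl
          have h3 : c.1.1.1 y = (π (c.1.1.1 e)).1.1 (g.1.1.1 y) := by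
            conv_lhs => rw [hcg]
            rfl
          rw [h2, hk, h3]
          rfl
        rw [h1]
        have hkX : ∀ q, X (k.1 q) = k.1 (X q) := by
          intro q
          have := hcentral k.1 k.2 hkK X x.1.2
          have := congrArg (fun g : Equiv.Perm Q => g q) this
          exact this.symm
        rw [hkX, hCx]
        have : X y = y := hy'
        rw [this]
      · intro c hc c' hc' hcc
        have h1 : f c = g := (Finset.mem_filter.mp hc).2
        have h2 : f c' = g := (Finset.mem_filter.mp hc').2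
        have hcg : c.1 = π (c.1.1.1 e) * g.1 := by
          rw [← h1]; simp [f]
        have hcg' : c'.1 = π (c'.1.1.1 e) * g.1 := by
          rw [← h2]; simp [f]
        have hcc' : c.1.1.1 e = c'.1.1.1 e := hcc
        apply Subtype.ext
        rw [hcg, hcg', hcc']
    have hCdvd : Nat.card C ∣ Nat.card (MulAction.fixedBy Q x) * Nat.card G1 := by
      obtain ⟨i, hi⟩ := (hGp.to_subgroup C).exists_card_eq
      obtain ⟨j, hj⟩ := (hGp.to_subgroup G1).exists_card_eq
      have hi' : Nat.card C = p ^ i := hi
      have hj' : Nat.card G1 = p ^ j := hj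
      rw [hi', hb, hj', ← pow_add] at hCle
      have hle : i ≤ b + j := (Nat.pow_le_pow_iff_right hpp.out.one_lt).mp hCle
      rw [hi', hj']
      refine dvd_trans (pow_dvd_pow p hle) ?_
      rw [pow_add]
      exact Nat.mul_dvd_mul (hb ▸ hBdvd) dvd_rfl
    have hcl := card_conj_mul x
    have hcl' : Nat.card {x' // IsConj x x'} * Nat.card C = T.card * Nat.card G1 := by
      rw [← hcardG]; exact hcl
    obtain ⟨q, hq⟩ := hCdvd
    have hG1pos : 0 < Nat.card G1 := Nat.card_pos
    refine ⟨q, ?_⟩
    apply Nat.eq_of_mul_eq_mul_right hG1pos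
    calc Nat.card {x' // IsConj x x'} * Nat.card (MulAction.fixedBy Q x) * Nat.card G1
        = Nat.card {x' // IsConj x x'} * (Nat.card (MulAction.fixedBy Q x) * Nat.card G1) := by
          ring
      _ = (Nat.card {x' // IsConj x x'} * Nat.card C) * q := by rw [hq]; ring
      _ = T.card * q * Nat.card G1 := by rw [hcl']; ring
  -- conclusion by Burnside's lemma
  have hburn : ∑ m : G, Nat.card (MulAction.fixedBy Q m) =
      Fintype.card (Quotient (MulAction.orbitRel G Q)) * Fintype.card G := by
    rw [← MulAction.sum_card_fixedBy_eq_card_orbits_mul_card_group G Q]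
    exact Finset.sum_congr rfl (fun m _ => Nat.card_eq_fintype_card)
  have hclass : ∀ g x : G, IsConj g x →
      Nat.card (MulAction.fixedBy Q g) = Nat.card (MulAction.fixedBy Q x) := by
    intro g x hgx
    obtain ⟨c, hc⟩ := isConj_iff.mp hgx
    apply Nat.card_congr
    refine Equiv.ofBijective (fun z => ⟨c • z.1, ?_⟩) ⟨?_, ?_⟩
    · have hz : g • z.1 = z.1 := z.2
      change x • (c • z.1) = c • z.1
      rw [← hc, mul_smul, mul_smul, inv_smul_smul, hz]
    · intro a b hab
      have : c • a.1 = c • b.1 := congrArg Subtype.val hab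
      exact Subtype.ext (MulAction.injective c this)
    · rintro ⟨w, hw⟩
      have hw' : x • w = w := hw
      refine ⟨⟨c⁻¹ • w, ?_⟩, Subtype.ext (by simp)⟩
      change g • (c⁻¹ • w) = c⁻¹ • w
      have hg : g = c⁻¹ * x * c := by
        rw [← hc]; group
      rw [hg, mul_smul, mul_smul, smul_inv_smul, hw']
  have hdvd : T.card ∣ ∑ m : G, Nat.card (MulAction.fixedBy Q m) := by
    rw [hburn, ← Nat.card_eq_fintype_card (α := G), hcardG]
    exact Dvd.dvd.mul_left (Dvd.intro _ rfl) _
  have hfinal := dvd_of_class_sum (G := G) (fun m => Nat.card (MulAction.fixedBy Q m)) T.card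
    hclass key hdvd
  have hone : Nat.card (MulAction.fixedBy Q (1 : G)) = Fintype.card Q := by
    rw [← Nat.card_eq_fintype_card]
    apply Nat.card_congr
    exact Equiv.subtypeUnivEquiv (fun x => by simp)
  refine ⟨by rw [← hone]; exact hfinal, ?_⟩
  have hTdvd : T.card ∣ Nat.card G := by rw [hcardG]; exact Dvd.intro _ rfl
  obtain ⟨i, hi⟩ := hGp.exists_card_eq
  rw [hi] at hTdvd
  obtain ⟨j, -, hj⟩ := (Nat.dvd_prime_pow hpp.out).mp hTdvd
  exact ⟨j, hj⟩

open scoped Classical in
/-- Version of `mainP` with the hypothesis stated through the left multiplication group of `T`. -/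
theorem mainP' (p : ℕ) (hp : p.Prime) (Q : Type) [Fintype Q] (mul : Q → Q → Q) (e : Q)
    (h : IsALoop mul e) (T : Finset Q) (heT : e ∈ T)
    (hmT : ∀ a ∈ T, ∀ b ∈ T, mul a b ∈ T)
    (hpg : IsPGroup p (Subgroup.closure
      {f : Equiv.Perm T | ∃ t : T, ∀ x : T, (f x : Q) = mul t x})) :
    T.card ∣ Fintype.card Q := by
  have : Fact p.Prime := ⟨hp⟩
  refine (mainP p _ Q mul e h rfl T heT hmT ?_).1
  intro m hm
  have hlift : ∃ f ∈ Subgroup.closure
      {f : Equiv.Perm T | ∃ t : T, ∀ x : T, (f x : Q) = mul t x}, ∀ x : T, (f x : Q) = m x := by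
    induction hm using Subgroup.closure_induction with
    | mem m hm =>
      obtain ⟨t, ht, rfl⟩ := hm
      have hinj : Function.Injective (fun x : T => (⟨mul t x, hmT _ ht _ x.2⟩ : T)) := by
        intro a b hab
        exact Subtype.ext (h.left_cancel (congrArg Subtype.val hab))
      refine ⟨Equiv.ofBijective _ (Finite.injective_iff_bijective.mp hinj),
        Subgroup.subset_closure ⟨⟨t, ht⟩, fun x => rfl⟩, fun x => rfl⟩
    | one => exact ⟨1, Subgroup.one_mem _, fun x => rfl⟩
    | mul m m' _ _ hm hm' =>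
      obtain ⟨f, hf, hfx⟩ := hm
      obtain ⟨f', hf', hfx'⟩ := hm'
      refine ⟨f * f', Subgroup.mul_mem _ hf hf', ?_⟩
      intro x
      rw [Equiv.Perm.mul_apply, hfx, hfx']
      rfl
    | inv m _ hm =>
      obtain ⟨f, hf, hfx⟩ := hm
      refine ⟨f⁻¹, Subgroup.inv_mem _ hf, ?_⟩
      intro x
      have h1 := hfx (f⁻¹ x)
      have h2 : f (f⁻¹ x) = x := f.apply_symm_apply x
      rw [h2] at h1
      rw [h1]
      simp
  obtain ⟨f, hf, hfx⟩ := hlift
  obtain ⟨k, hk⟩ := hpg ⟨f, hf⟩
  refine ⟨k, ?_⟩
  intro t ht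
  have hpow : ∀ i : ℕ, ∀ x : T, ((f ^ i) x : Q) = (m ^ i) x := by
    intro i
    induction i with
    | zero => intro x; rfl
    | succ i ihi =>
      intro x
      rw [pow_succ', pow_succ', Equiv.Perm.mul_apply, Equiv.Perm.mul_apply, hfx, ihi]
  have hk' : f ^ (p ^ k) = 1 := congrArg Subtype.val hk
  have := hpow (p ^ k) ⟨t, ht⟩
  rw [hk'] at this
  exact this.symm

/-- **Lagrange's theorem for subloops of finite automorphic loops that have enough good
subloops.**  Let `Q` be a finite automorphic loop and `S` a subloop of `Q`.  Assume that for every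
prime `p` there is a subloop `T` of `S` whose order is divisible by the largest power of `p`
dividing `|S|` and which is either associative or whose left multiplication group is a `p`-group.
Then `|S|` divides `|Q|`. -/
theorem result :
  ∀ (Q : Type) [Fintype Q] (mul : Q → Q → Q) (e : Q),
    (∀ x, mul e x = x) → (∀ x, mul x e = x) →
    (∀ a b : Q, ∃! x, mul a x = b) → (∀ a b : Q, ∃! x, mul x a = b) →
    (∀ x u v a b c : Q, mul x a = mul u x → mul x b = mul v x →
        mul x c = mul (mul u v) x → c = mul a b) →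
    (∀ x y u v a b c : Q, mul (mul x y) a = mul x (mul y u) →
        mul (mul x y) b = mul x (mul y v) →
        mul (mul x y) c = mul x (mul y (mul u v)) → c = mul a b) →
    (∀ x y u v a b c : Q, mul a (mul x y) = mul (mul u x) y →
        mul b (mul x y) = mul (mul v x) y →
        mul c (mul x y) = mul (mul (mul u v) x) y → c = mul a b) →
    ∀ S : Finset Q, e ∈ S → (∀ a ∈ S, ∀ b ∈ S, mul a b ∈ S) →
      (∀ p : ℕ, p.Prime → ∃ T : Finset Q, T ⊆ S ∧ e ∈ T ∧ (∀ a ∈ T, ∀ b ∈ T, mul a b ∈ T) ∧
        p ^ (S.card.factorization p) ∣ T.card ∧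
        ((∀ a ∈ T, ∀ b ∈ T, ∀ c ∈ T, mul (mul a b) c = mul a (mul b c)) ∨
          IsPGroup p (Subgroup.closure
            {f : Equiv.Perm T | ∃ t : T, ∀ x : T, (f x : Q) = mul t x}))) →
      S.card ∣ Fintype.card Q := by
  intro Q _ mul e h1 h2 h3 h4 h5 h6 h7 S heS hmS hT
  have h : IsALoop mul e := ⟨h1, h2, h3, h4, h5, h6, h7⟩
  have hS0 : S.card ≠ 0 := (Finset.card_pos.mpr ⟨e, heS⟩).ne'
  have hQ0 : Fintype.card Q ≠ 0 := (Fintype.card_pos_iff.mpr ⟨e⟩).ne'
  rw [← Nat.factorization_prime_le_iff_dvd hS0 hQ0]
  intro p hp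
  obtain ⟨T, hTS, heT, hmT, hdvd, hor⟩ := hT p hp
  have hTQ : T.card ∣ Fintype.card Q := by
    rcases hor with hass | hpg
    · exact mainAssoc _ Q mul e h rfl T heT hmT hass
    · exact mainP' p hp Q mul e h T heT hmT hpg
  exact (hp.pow_dvd_iff_le_factorization hQ0).mp (dvd_trans hdvd hTQ)

end Pool.Agent.Results.MP_62d712_al.SylowLagrange
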